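import Pool.Agent.helper38.VA.Spec

/-!
# Row SIE of project va (MP_a2a22c_al)
-/

set_option autoImplicit false

namespace Pool.Agent.VA

open Matrix Module Pool.Agent.PR Pool.Agent.H48SL

theorem SIE_inj {n : ℕ} {a b : SLZ n} (h : stdM ℚ a = stdM ℚ b) : a = b := by
  apply Matrix.SpecialLinearGroup.ext
  intro i j
  have h1 := congrFun (congrFun h i) j
  have h2 : ((a : Matrix (Fin n) (Fin n) ℤ) i j : ℚ) = ((b : Matrix (Fin n) (Fin n) ℤ) i j : ℚ) := h1
  exact_mod_cast h2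

/-- conjugation as a ring homomorphism -/
noncomputable def SIE_hom {n : ℕ} (b : SLZ n) : MQ n →+* MQ n where
  toFun := cj b
  map_one' := by
    rw [cj_apply, Matrix.mul_one, stdM_mul_inv]
  map_mul' := cj_mul_apply b
  map_zero' := map_zero _
  map_add' := map_add _

theorem SIE_exp {n : ℕ} (b : SLZ n) {X : MQ n} (hX : IsNilpotent X) :
    stdM ℚ b * IsNilpotent.exp X * stdM ℚ b⁻¹ = IsNilpotent.exp (cj b X) := by
  have h := IsNilpotent.map_exp hX (SIE_hom b)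
  have h1 : SIE_hom b (IsNilpotent.exp X) = stdM ℚ b * IsNilpotent.exp X * stdM ℚ b⁻¹ := cj_apply b _
  rw [← h1, h]
  rfl

theorem SIE_smul {n : ℕ} {X : MQ n} (hX : IsNilpotent X) (c : ℚ) : IsNilpotent (c • X) := by
  obtain ⟨m, hm⟩ := hX
  exact ⟨m, by rw [smul_pow, hm, smul_zero]⟩

theorem SIE_pow {n : ℕ} {X : MQ n} (hX : IsNilpotent X) (m : ℕ) :
    IsNilpotent.exp ((m : ℚ) • X) = IsNilpotent.exp X ^ m := by
  induction m with
  | zero => rw [Nat.cast_zero, zero_smul, IsNilpotent.exp_zero, pow_zero]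
  | succ m ih =>
    rw [Nat.cast_succ, add_smul, one_smul, IsNilpotent.exp_add_of_commute _ (SIE_smul hX _) hX, ih, pow_succ]
    exact (Commute.refl X).smul_left _

theorem SIE_stdpow {n : ℕ} (a : SLZ n) (m : ℕ) : stdM ℚ (a ^ m) = stdM ℚ a ^ m := by
  induction m with
  | zero => rw [pow_zero, pow_zero, stdM_one]
  | succ m ih => rw [pow_succ, pow_succ, stdM_mul, ih]

theorem SIE_EX {n : ℕ} {H : Subgroup (SLZ n)} {X : MQ n} (hX : IsNilpotent X) (h : EX H X) (m : ℕ) :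
    EX H ((m : ℚ) • X) := by
  obtain ⟨a, ha, e⟩ := h
  exact ⟨a ^ m, H.pow_mem ha m, by rw [SIE_stdpow, e, SIE_pow hX]⟩

theorem SIE (hC2 : C2_stmt) (hLGS : LGS_stmt) (hFIT : FIT_stmt) (hEIG : EIG_stmt) : SIE_stmt := by
  intro n H N b hNH hbH hnil hcom hbN hnc
  obtain ⟨U, Unil, Ucom, Ulog, Uexp, Usta⟩ := hLGS n N hnil hcom
  have hT : ∀ x ∈ U, cj b x ∈ U := Usta b hbN
  have hTp : ∀ (j : ℕ), ∀ x ∈ U, (cj b ^ j) x ∈ U := by
    intro j
    induction j with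
    | zero => intro x hx; exact hx
    | succ j ih =>
      intro x hx
      rw [pow_succ]
      exact ih _ (hT x hx)
  have hne : ∀ j : ℕ, 0 < j → ∃ x ∈ U, (cj b ^ j) x ≠ x := by
    intro j hj
    obtain ⟨a, ha, hab⟩ := hnc j hj
    obtain ⟨X, hX, e⟩ := Uexp a ha
    refine ⟨X, hX, fun h => hab ?_⟩
    rw [← cj_pow] at h
    have h1 := SIE_exp (b ^ j) (Unil X hX)
    rw [h, ← e, ← stdM_mul, ← stdM_mul] at h1
    have h2 := SIE_inj h1
    exact mul_inv_eq_iff_eq_mul.1 h2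
  rcases hFIT (MQ n) (cj b) U hT hne with ⟨j, hj, X, hX, hD0, hD⟩ | ⟨i, W, hi, hWU, hW0, hWT, hfix, hirr⟩
  · left
    set D : MQ n := (cj b ^ j) X - X with hDdef
    have hDU : D ∈ U := U.sub_mem (hTp j X hX) hX
    rw [← cj_pow] at hD hDdef
    obtain ⟨k₁, hk₁, hE₁⟩ := Ulog X hX
    obtain ⟨k₂, hk₂, hE₂⟩ := Ulog D hDU
    have e1 : (((k₂ * k₁ : ℕ) : ℚ)) • X = ((k₂ : ℕ) : ℚ) • ((k₁ : ℚ) • X) := by
      rw [smul_smul, Nat.cast_mul]
    have e2 : (((k₂ * k₁ : ℕ) : ℚ)) • D = ((k₁ : ℕ) : ℚ) • ((k₂ : ℚ) • D) := by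
      rw [smul_smul, Nat.cast_mul, mul_comm]
    have hEX : EX N (((k₂ * k₁ : ℕ) : ℚ) • X) := by
      rw [e1]
      exact SIE_EX (SIE_smul (Unil X hX) _) hE₁ k₂
    have hED : EX N (((k₂ * k₁ : ℕ) : ℚ) • D) := by
      rw [e2]
      exact SIE_EX (SIE_smul (Unil D hDU) _) hE₂ k₁
    set k : ℕ := k₂ * k₁ with hk
    have hk0 : 0 < k := Nat.mul_pos hk₂ hk₁
    obtain ⟨y, hy, ey⟩ := hEX
    obtain ⟨z, hz, ez⟩ := hED
    have hkX : IsNilpotent ((k : ℚ) • X) := SIE_smul (Unil X hX) _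
    have hkD : IsNilpotent ((k : ℚ) • D) := SIE_smul (Unil D hDU) _
    have hcD : cj (b ^ j) ((k : ℚ) • D) = (k : ℚ) • D := by
      rw [map_smul, hD]
    have hcX : cj (b ^ j) ((k : ℚ) • X) = (k : ℚ) • D + (k : ℚ) • X := by
      rw [map_smul, ← smul_add, hDdef, sub_add_cancel]
    refine ⟨b ^ j, H.pow_mem hbH j, y, hNH hy, z, hNH hz, ?_, hcom y hy z hz, ?_, ?_⟩
    · have h1 := SIE_exp (b ^ j) hkD
      rw [hcD, ← ez, ← stdM_mul, ← stdM_mul] at h1
      exact mul_inv_eq_iff_eq_mul.1 (SIE_inj h1)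
    · have h1 := SIE_exp (b ^ j) hkX
      rw [hcX, IsNilpotent.exp_add_of_commute _ hkD hkX, ← ey, ← ez, ← stdM_mul, ← stdM_mul, ← stdM_mul] at h1
      · have h2 := mul_inv_eq_iff_eq_mul.1 (SIE_inj h1)
        rw [h2, mul_assoc]
      · have h3 : Commute D X := Ucom D hDU X hX
        exact (h3.smul_left _).smul_right _
    · intro m hm h
      obtain ⟨lg, -, hlg⟩ := hC2 n ℚ
      have h1 : IsNilpotent.exp ((m : ℚ) • ((k : ℚ) • D)) = IsNilpotent.exp 0 := by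
        rw [SIE_pow hkD, ← ez, ← SIE_stdpow, h, stdM_one, IsNilpotent.exp_zero]
      have h2 := congrArg lg h1
      rw [hlg _ (SIE_smul hkD _), hlg _ IsNilpotent.zero] at h2
      rw [smul_smul] at h2
      rcases smul_eq_zero.1 h2 with h3 | h3
      · have h4 : (m : ℚ) * (k : ℚ) ≠ 0 := by
          have : (0 : ℚ) < m := by exact_mod_cast hm
          have : (0 : ℚ) < k := by exact_mod_cast hk0
          positivity
        exact h4 h3
      · apply hD0
        exact h3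
  · right
    refine ⟨W, b ^ i, ?_⟩
    refine ⟨H.pow_mem hbH i, ?_, fun X hX => Unil X (hWU hX), fun X hX Y hY => Ucom X (hWU hX) Y (hWU hY),
      ?_, ?_, ?_⟩
    · by_contra hlt
      push Not at hlt
      obtain ⟨X, hX, hX0⟩ := (Submodule.ne_bot_iff _).1 hW0
      have hf : finrank ℚ W ≤ 1 := by omega
      obtain ⟨v, hv⟩ := finrank_le_one_iff.1 hf
      obtain ⟨c₁, hc₁⟩ := hv ⟨X, hX⟩
      obtain ⟨c₂, hc₂⟩ := hv ⟨(cj b ^ i) X, hWT X hX⟩
      have h1 : c₁ • (v : MQ n) = X := congrArg Subtype.val hc₁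
      have h2 : c₂ • (v : MQ n) = (cj b ^ i) X := congrArg Subtype.val hc₂
      have hc0 : c₁ ≠ 0 := by
        intro h
        rw [h, zero_smul] at h1
        exact hX0 h1.symm
      have h3 : cj (b ^ i) X = (c₂ / c₁) • X := by
        rw [cj_pow, ← h2, ← h1, smul_smul, div_mul_cancel₀ _ hc0]
      have h4 := (hEIG n (b ^ i) (c₂ / c₁)).2.2 X hX0 h3
      have h5 : (cj b ^ (i * 2)) X = X := by
        rw [← cj_pow, pow_mul, pow_two, cj_mul, h3, map_smul, h3, smul_smul]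
        rcases h4 with h4 | h4
        · rw [h4, one_mul, one_smul]
        · rw [h4, neg_mul_neg, one_mul, one_smul]
      exact hX0 (hfix (i * 2) (by omega) X hX h5)
    · intro X hX
      obtain ⟨k, hk, a, ha, e⟩ := Ulog X (hWU hX)
      exact ⟨k, hk, a, hNH ha, e⟩
    · intro X hX
      rw [cj_pow]
      exact hWT X hX
    · intro j hj W' hW' hW'0 hst
      apply hirr j hj W' hW' hW'0
      intro x hx
      have h1 := hst x hx
      rw [← pow_mul, cj_pow] at h1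
      exact h1

end Pool.Agent.VA
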